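import Pool.Agent.W593.IR.Stm
import Pool.Agent.W890.SF.R2

/-!
# Project IR, part LIMI: the limit in the form of the integral problem
-/

set_option autoImplicit false

namespace Pool.Agent.W446.IR

open Finset Filter Topology Pool.Agent.W890.SF Pool.Agent.W593.IR

theorem mul_card_le {n k : ℕ} (M : Finset (Finset (Fin n))) (hM : ∀ A ∈ M, A.card = k)
    (hd : (M : Set (Finset (Fin n))).PairwiseDisjoint id) : k * M.card ≤ n := by
  have h1 : (M.biUnion id).card = ∑ A ∈ M, A.card := Finset.card_biUnion hd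
  have h2 : ∑ A ∈ M, A.card = k * M.card := by
    rw [Finset.sum_congr rfl hM, Finset.sum_const, smul_eq_mul, mul_comm]
  have h3 : (M.biUnion id).card ≤ n := by
    have := Finset.card_le_univ (M.biUnion id)
    rwa [Fintype.card_fin] at this
  omega

theorem mm_full {n k s : ℕ} (h : ∀ t : ℕ, k * t ≤ n → t ≤ s) : mm n k s = n.choose k := by
  apply le_antisymm
  · obtain ⟨F, hF1, hF2, -⟩ := R2.mm_mem n k s
    rw [← hF1]
    have h1 : F ⊆ powersetCard k univ := fun A hA => mem_powersetCard.2 ⟨subset_univ _, hF2 A hA⟩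
    have h2 := Finset.card_le_card h1
    rwa [Finset.card_powersetCard, Finset.card_univ, Fintype.card_fin] at h2
  · have h1 : ((powersetCard k (univ : Finset (Fin n))).card) ≤ mm n k s := by
      apply R2.le_mm
      · intro A hA
        exact (mem_powersetCard.1 hA).2
      · intro M hM hd
        exact h _ (mul_card_le M (fun A hA => (mem_powersetCard.1 (hM hA)).2) hd)
    rwa [Finset.card_powersetCard, Finset.card_univ, Fintype.card_fin] at h1

theorem limi : S_LIMI := by
  intro hl hL k hk x hx hcase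
  have hk0 : (0 : ℝ) < k := by exact_mod_cast (by omega : 0 < k)
  have hk2 : (2 : ℝ) ≤ k := by exact_mod_cast hk
  rcases hcase with hx1 | ⟨hkx, hub⟩
  · have hkx1 : (k : ℝ) * x = 1 := by rw [hx1]; field_simp
    have hmv : mv k x = 1 := by
      unfold mv
      rw [hkx1, one_pow]
      apply max_eq_right
      have h1 : 0 ≤ 1 - x := by
        have : x ≤ 1 := by nlinarith
        linarith
      have : 0 ≤ (1 - x) ^ k := pow_nonneg h1 k
      linarith
    rw [hmv]
    refine tendsto_const_nhds.congr' ?_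
    filter_upwards [eventually_ge_atTop k] with n hn
    have h1 : mm n k ⌊x * (n : ℝ)⌋₊ = n.choose k := by
      apply mm_full
      intro t ht
      apply Nat.le_floor
      have h2 : (k : ℝ) * t ≤ n := by exact_mod_cast ht
      have h3 : (k : ℝ) * t ≤ k * (x * n) := by
        rw [← mul_assoc, hkx1, one_mul]; exact h2
      exact le_of_mul_le_mul_left h3 hk0
    rw [h1, div_self]
    have : 0 < n.choose k := Nat.choose_pos hn
    positivity
  · have hx1 : x ≤ 1 := by nlinarith
    obtain ⟨l1, l2⟩ := hL k (by omega) x hx hx1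
    have l3 := l1.max (l2 hkx)
    have hlow : ∀ᶠ n : ℕ in atTop,
        max (((n.choose k - (n - ⌊x * (n : ℝ)⌋₊).choose k : ℕ) : ℝ) / ((n.choose k : ℕ) : ℝ))
          ((((k * (⌊x * (n : ℝ)⌋₊ + 1) - 1).choose k : ℕ) : ℝ) / ((n.choose k : ℕ) : ℝ)) ≤
        (mm n k ⌊x * (n : ℝ)⌋₊ : ℝ) / ((n.choose k : ℕ) : ℝ) := by
      obtain ⟨N, hN⟩ := exists_nat_gt ((k : ℝ) / (1 - k * x))
      filter_upwards [eventually_ge_atTop N] with n hn
      have h0 : 0 < 1 - k * x := by linarith
      have hnN : (k : ℝ) / (1 - k * x) < n := lt_of_lt_of_le hN (by exact_mod_cast hn)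
      have hn1 : (k : ℝ) < n * (1 - k * x) := by rwa [div_lt_iff₀ h0] at hnN
      have hfl : ((⌊x * (n : ℝ)⌋₊ : ℕ) : ℝ) ≤ x * n := Nat.floor_le (by positivity)
      have hsn : ⌊x * (n : ℝ)⌋₊ ≤ n := by
        have : ((⌊x * (n : ℝ)⌋₊ : ℕ) : ℝ) ≤ n := by
          have h5 : (0 : ℝ) ≤ n := Nat.cast_nonneg n
          nlinarith
        exact_mod_cast this
      have hks : k * (⌊x * (n : ℝ)⌋₊ + 1) - 1 ≤ n := by
        have h5 : ((k * (⌊x * (n : ℝ)⌋₊ + 1) : ℕ) : ℝ) ≤ n := by
          push_cast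
          nlinarith
        have h6 : k * (⌊x * (n : ℝ)⌋₊ + 1) ≤ n := by exact_mod_cast h5
        omega
      obtain ⟨m1, m2, -⟩ := hl n k ⌊x * (n : ℝ)⌋₊ (by omega) hsn
      have hc : (0 : ℝ) ≤ ((n.choose k : ℕ) : ℝ) := Nat.cast_nonneg _
      refine max_le ?_ ?_
      · exact div_le_div_of_nonneg_right (by exact_mod_cast m1) hc
      · exact div_le_div_of_nonneg_right (by exact_mod_cast m2 hks) hc
    have hupp : ∀ ε : ℝ, 0 < ε → ∀ᶠ n : ℕ in atTop,
        (mm n k ⌊x * (n : ℝ)⌋₊ : ℝ) / ((n.choose k : ℕ) : ℝ) ≤ mv k x + ε := by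
      intro ε hε
      obtain ⟨η, hη, n0, h0⟩ := hub ε hε
      obtain ⟨N, hN⟩ := exists_nat_gt (1 / η)
      filter_upwards [eventually_ge_atTop (max n0 (max N k))] with n hn
      have hn0 : n0 ≤ n := le_trans (le_max_left _ _) hn
      have hnN : N ≤ n := le_trans (le_trans (le_max_left _ _) (le_max_right _ _)) hn
      have hnk : k ≤ n := le_trans (le_trans (le_max_right _ _) (le_max_right _ _)) hn
      have hηn : 1 ≤ η * n := by
        have h1 : 1 / η < n := lt_of_lt_of_le hN (by exact_mod_cast hnN)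
        rw [div_lt_iff₀ hη] at h1
        linarith
      have hc : (0 : ℝ) < ((n.choose k : ℕ) : ℝ) := by
        exact_mod_cast Nat.choose_pos hnk
      obtain ⟨F, hF1, hF2, hF3⟩ := R2.mm_mem n k ⌊x * (n : ℝ)⌋₊
      rw [div_le_iff₀ hc, ← hF1]
      by_contra hcon
      push Not at hcon
      obtain ⟨M, hMF, hMt, hMc⟩ := h0 n hn0 F hF2 hcon.le
      have h2 := hF3 M hMF (fun a ha b hb hab => hMt a ha b hb hab)
      have h3 : ⌊x * (n : ℝ)⌋₊ + 1 ≤ ⌊(x + η) * (n : ℝ)⌋₊ := by
        rw [← Nat.floor_add_one (by positivity)]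
        apply Nat.floor_le_floor
        nlinarith
      omega
    refine tendsto_order.2 ⟨?_, ?_⟩
    · intro a ha
      have h1 := (tendsto_order.1 l3).1 a ha
      filter_upwards [h1, hlow] with n h2 h3
      exact lt_of_lt_of_le h2 h3
    · intro b hb
      filter_upwards [hupp ((b - mv k x) / 2) (by linarith)] with n h2
      linarith

end Pool.Agent.W446.IR
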