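import Pool.Agent.W593.IR.Stm3

set_option autoImplicit false

namespace Pool.Agent.W446.IR

open Finset Pool.Agent.W890.SF Pool.Agent.W593.IR

/-- the first `n` items of a family of `k` items -/
theorem tp_prefix {k : ℕ} {x : ℝ} {a b q : ℕ → ℝ}
    (h : TP k x (fun i : Fin k => a i) (fun i : Fin k => b i) (fun i : Fin k => q i)) {n : ℕ}
    (hn : n ≤ k) :
    TP n x (fun i : Fin n => a i) (fun i : Fin n => b i) (fun i : Fin n => q i) :=
  ⟨fun i => h.a0 ⟨i, lt_of_lt_of_le i.2 hn⟩, fun i => h.b0 ⟨i, lt_of_lt_of_le i.2 hn⟩,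
    fun i => h.q0 ⟨i, lt_of_lt_of_le i.2 hn⟩, fun i => h.q1 ⟨i, lt_of_lt_of_le i.2 hn⟩,
    fun i => h.mean ⟨i, lt_of_lt_of_le i.2 hn⟩⟩

theorem slack {n : ℕ} {x : ℝ} {a b q : Fin n → ℝ} (h : TP n x a b q) :
    (1 - ∑ i, a i) - ∑ i, b i * q i = 1 - n * x := by
  have h1 : ∑ i, a i + ∑ i, b i * q i = n * x := by
    rw [← Finset.sum_add_distrib, Finset.sum_congr rfl (fun i _ => h.mean i), Finset.sum_const,
      Finset.card_univ, Fintype.card_fin, nsmul_eq_mul]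
  linarith

theorem c_le_one {n : ℕ} {x : ℝ} {a b q : Fin n → ℝ} (h : TP n x a b q) :
    1 - ∑ i, a i ≤ 1 := by
  have h1 : 0 ≤ ∑ i, a i := Finset.sum_nonneg fun i _ => h.a0 i
  linarith

theorem bq_nonneg {n : ℕ} {x : ℝ} {a b q : Fin n → ℝ} (h : TP n x a b q) :
    0 ≤ ∑ i, b i * q i := Finset.sum_nonneg fun i _ => mul_nonneg (h.b0 i).le (h.q0 i)

theorem pu_zero {n : ℕ} {x : ℝ} {a b q : Fin n → ℝ} (h : TP n x a b q) (c : ℝ) (hc : c ≤ 0) :
    PU b q c univ = 0 := by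
  unfold PU
  apply Finset.sum_eq_zero
  intro ω _
  have h1 : 0 ≤ ∑ i ∈ ω, b i := Finset.sum_nonneg fun i _ => (h.b0 i).le
  rw [if_neg (by linarith)]

theorem pg_zero {n : ℕ} {x : ℝ} {a b q : Fin n → ℝ} (h : TP n x a b q) (c : ℝ) (hc : c ≤ 0) :
    PG b q c univ = 0 := by
  unfold PG
  apply Finset.sum_eq_zero
  intro ω _
  have h1 : 0 ≤ ∑ i ∈ ω, b i := Finset.sum_nonneg fun i _ => (h.b0 i).le
  rw [if_neg (by linarith)]

/-- the facts for the first `n` items -/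
theorem facts (h1 : S_BAS) {n : ℕ} {x : ℝ} {a b q : Fin n → ℝ} (h : TP n x a b q)
    (hs : 0 ≤ 1 - n * x) :
    0 ≤ PP a b q ∧ PP a b q ≤ 1 ∧ 1 - n * x ≤ PG b q (1 - ∑ i, a i) univ ∧
      PG b q (1 - ∑ i, a i) univ ≤ PP a b q := by
  have hsl := slack h
  have hc1 := c_le_one h
  have hbq := bq_nonneg h
  unfold PP
  by_cases hc : 0 < 1 - ∑ i, a i
  · obtain ⟨e1, e2, e3, e4, e5⟩ := h1 (Fin n) b q (1 - ∑ i, a i) univ hc
      (fun i _ => ⟨h.b0 i, h.q0 i, h.q1 i⟩)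
    refine ⟨e1.le, e2, by linarith, ?_⟩
    refine e3.trans ?_
    exact mul_le_of_le_one_left e1.le hc1
  · push Not at hc
    rw [pu_zero h _ hc, pg_zero h _ hc]
    exact ⟨le_rfl, zero_le_one, by linarith, le_rfl⟩

theorem seq (h1 : S_BAS) (h2 : S_GW) (h3 : S_FLR) : S_SEQ := by
  intro k hk a b q hT
  have hk0 : (0 : ℝ) < k := by exact_mod_cast hk
  have hpre : ∀ j, j ≤ k → TP (k - j) (1 / (k : ℝ)) (fun i : Fin (k - j) => a i)
      (fun i : Fin (k - j) => b i) (fun i : Fin (k - j) => q i) :=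
    fun j _ => tp_prefix hT (Nat.sub_le k j)
  have hsl : ∀ j, j ≤ k → 1 - ((k - j : ℕ) : ℝ) * (1 / (k : ℝ)) = j / k := by
    intro j hj
    rw [Nat.cast_sub hj]
    field_simp
    ring
  have hF : ∀ j, j ≤ k → 0 ≤ Us a b q (k - j) ∧ Us a b q (k - j) ≤ 1 ∧
      (j : ℝ) / k ≤ Gs a b q (k - j) ∧ Gs a b q (k - j) ≤ Us a b q (k - j) := by
    intro j hj
    have h := facts h1 (hpre j hj) (by rw [hsl j hj]; positivity)
    rw [hsl j hj] at h
    exact h
  refine ⟨fun j hj => (hF j hj).1, fun j hj => (hF j hj).2.1, ?_, ?_, ?_, ?_, ?_⟩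
  · intro j hj
    have h := (hF j hj).2.2.1
    rw [div_le_iff₀ hk0] at h
    linarith
  · intro j hj
    exact mul_le_mul_of_nonneg_left (hF j hj).2.2.2 hk0.le
  · show Us a b q (k - k) = 1
    rw [Nat.sub_self]
    unfold Us PP PU Wt
    simp
  · intro j hj
    obtain ⟨r, hr⟩ : ∃ r, k - j = r + 1 := ⟨k - j - 1, by omega⟩
    have hr2 : k - (j + 1) = r := by omega
    have hTr : TP (r + 1) (1 / (k : ℝ)) (fun i : Fin (r + 1) => a i)
        (fun i : Fin (r + 1) => b i) (fun i : Fin (r + 1) => q i) :=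
      tp_prefix hT (by omega)
    have h := h2 r (1 / (k : ℝ)) (by positivity) _ _ _ hTr
    have h' : Gs a b q r ≤ Gs a b q (r + 1) + 1 / (k : ℝ) * Us a b q r := h
    show (k : ℝ) * Gs a b q (k - (j + 1)) ≤ (k : ℝ) * Gs a b q (k - j) + Us a b q (k - (j + 1))
    rw [hr, hr2]
    have h4 := mul_le_mul_of_nonneg_left h' hk0.le
    have h5 : (k : ℝ) * (Gs a b q (r + 1) + 1 / (k : ℝ) * Us a b q r) =
        (k : ℝ) * Gs a b q (r + 1) + Us a b q r := by
      field_simp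
    rw [h5] at h4
    exact h4
  · intro j hj m hm g hmg hg hu hgu
    have hTj := hpre j hj
    have hslj := slack hTj
    rw [hsl j hj] at hslj
    have hc : 0 < 1 - ∑ i : Fin (k - j), a i := by
      by_contra hc
      push Not at hc
      have h0 : Us a b q (k - j) = 0 := pu_zero hTj _ hc
      have hu' : 0 < Us a b q (k - j) := hu
      linarith
    have hgu' : g * Us a b q (k - j) ≤ (k : ℝ) * Gs a b q (k - j) := hgu
    have hg0 : 0 < g := by linarith
    have hcast : ((m - j : ℕ) : ℝ) = m - j := by rw [Nat.cast_sub hm]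
    have e1 : (j : ℝ) / k + ((m - j : ℕ) : ℝ) * (1 / (k : ℝ)) = m / k := by
      rw [hcast]
      field_simp
      ring
    have h := h3 (Fin (k - j)) (fun i : Fin (k - j) => b i) (fun i : Fin (k - j) => q i)
      (1 - ∑ i : Fin (k - j), a i) (1 / (k : ℝ)) (g / k) univ (m - j) hc
      (fun i _ => ⟨hTj.b0 i, hTj.q0 i, hTj.q1 i⟩)
      (fun i _ => by
        have := hTj.mean i
        have := hTj.a0 i
        linarith)
      (by positivity) (by gcongr) ?_ ?_
    · rw [hslj, e1] at h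
      have e2 : 1 / (k : ℝ) / (g / k) = 1 / g := by
        field_simp
      rw [e2] at h
      have h' : (m : ℝ) / k * (1 - 1 / g) ^ (m - j) ≤ Gs a b q (k - j) := h
      show (m : ℝ) * (1 - 1 / g) ^ (m - j) ≤ (k : ℝ) * Gs a b q (k - j)
      have h6 := mul_le_mul_of_nonneg_left h' hk0.le
      have e3 : (k : ℝ) * ((m : ℝ) / k * (1 - 1 / g) ^ (m - j)) = (m : ℝ) * (1 - 1 / g) ^ (m - j) := by
        field_simp
      rw [e3] at h6
      exact h6
    · show g / k * Us a b q (k - j) ≤ Gs a b q (k - j)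
      rw [div_mul_eq_mul_div, div_le_iff₀ hk0]
      linarith
    · rw [hslj, e1]
      gcongr

end Pool.Agent.W446.IR
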